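import Pool.Agent.E8helper61.DL.Defs

set_option autoImplicit false

namespace Pool.Agent.E8helper15.DL

open Finset Matrix
open Pool.Agent.E8helper61.DL

theorem t_IND : S_IND := by
  classical
  intro h S h0 h1
  by_contra hcon
  have hcon' : 2 * h + 2 ≤ S.card := by omega
  obtain ⟨z, hz⟩ : S.Nonempty := card_pos.1 (by omega)
  have hli : LinearIndependent (ZMod 2) (fun x : (S.erase z) => (x : Vec h)) := by
    rw [Fintype.linearIndependent_iff]
    intro g hg
    have hdot : ∀ w : Vec h, ∑ x : (S.erase z), g x * ((x : Vec h) ⬝ᵥ w) = 0 := by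
      intro w
      have h2 := congrArg (fun u : Vec h => u ⬝ᵥ w) hg
      simp only [sum_dotProduct, smul_dotProduct, zero_dotProduct, smul_eq_mul] at h2
      exact h2
    have hsum : ∑ x : (S.erase z), g x = 0 := by
      rw [← hdot z]
      refine Finset.sum_congr rfl fun x _ => ?_
      rw [h1 x (mem_of_mem_erase x.2) z hz (ne_of_mem_erase x.2), mul_one]
    intro y
    have h3 : ∑ x : (S.erase z), g x * ((x : Vec h) ⬝ᵥ (y : Vec h)) =
        ∑ x : (S.erase z), (g x - if x = y then g x else 0) := by
      refine Finset.sum_congr rfl fun x _ => ?_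
      by_cases hxy : x = y
      · subst hxy
        rw [h0 x (mem_of_mem_erase x.2)]
        simp
      · rw [h1 x (mem_of_mem_erase x.2) y (mem_of_mem_erase y.2) (fun e => hxy (Subtype.ext e))]
        simp [hxy]
    rw [hdot, Finset.sum_sub_distrib, hsum, Finset.sum_ite_eq' univ y g] at h3
    simpa using h3.symm
  have h4 := hli.fintype_card_le_finrank
  rw [Module.finrank_fintype_fun_eq_card, Fintype.card_fin, Fintype.card_coe,
    card_erase_of_mem hz] at h4
  omega

theorem t_CARD : S_CARD := by
  classical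
  intro h hh
  have h2 : 0 < 2 * h := by omega
  set e : Vec h := Pi.single ⟨0, h2⟩ 1 with he
  have hee : e ⬝ᵥ e = 1 := by rw [he]; simp
  have hz : ∀ a : ZMod 2, a ≠ 0 → a = 1 := by decide
  have h3 : Fintype.card {x : Vec h // ¬ x ⬝ᵥ x = 0} ≤ Fintype.card (Ev h) := by
    refine Fintype.card_le_of_injective (fun x => (⟨x.1 + e, ?_⟩ : Ev h)) ?_
    · rw [add_dotProduct, dotProduct_add, dotProduct_add, hee, hz _ x.2, dotProduct_comm e x.1]
      have h5 : ∀ a : ZMod 2, 1 + a + (a + 1) = 0 := by decide
      exact h5 _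
    · intro x y hxy
      have h6 := congrArg Subtype.val hxy
      exact Subtype.ext (add_right_cancel h6)
  have h4 := Fintype.card_subtype_compl (fun x : Vec h => x ⬝ᵥ x = 0)
  have h5 : Fintype.card (Vec h) = 2 ^ (2 * h) := by
    rw [Fintype.card_fun, ZMod.card, Fintype.card_fin]
  have h6 : Fintype.card (Ev h) ≤ Fintype.card (Vec h) := Fintype.card_subtype_le _
  have h7 : (2 : ℕ) ^ (2 * h) = 2 * 2 ^ (2 * h - 1) := by
    rw [← pow_succ']
    congr 1
    omega
  have h8 : Fintype.card {x : Vec h // ¬ x ⬝ᵥ x = 0} = Fintype.card (Vec h) - Fintype.card (Ev h) := by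
    convert h4
  convert (show 2 ^ (2 * h - 1) ≤ Fintype.card (Ev h) by omega)

end Pool.Agent.E8helper15.DL
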